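import Pool.Agent.helper93.CR.SpecB
import Pool.Agent.helper62.HF.Glue

/-!
# MP_07c750, project CR: rows HCW and CLO (assembly)
-/

set_option autoImplicit false

open scoped MatrixGroups ContDiff Topology UpperHalfPlane ComplexConjugate
open UpperHalfPlane MeasureTheory Filter Set

namespace Pool.Agent.CR

open Pool.Agent.RS
open Pool.Agent.MS (bq CW)
open Pool.Agent.EN (XG MG mkX mkM fl pr)
open Pool.Agent.ER (LowJ)

theorem HCW_proof (h1 : EZW_stmt) (h2 : LFW_stmt) (h3 : ER.EZR_stmt) : HCW_stmt := by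
  intro Γ μ ρ Y Y' hΓ hμ hfl hρ hρ2 hY hY'
  obtain ⟨a1, ha1, H⟩ := h2 Γ hΓ
  refine ⟨a1, ha1, ?_⟩
  intro a ha haa Λ δ hΛ hδ
  obtain ⟨ϑ, m1, hϑ, Hm⟩ := H a ha haa (4 * Λ) ρ (by linarith) hρ hρ2
  obtain ⟨m, Am, hm, hAm, HA⟩ := h1 Γ μ ρ Y hΓ hμ hfl hρ.le hρ2 hY a ha ϑ δ m1 hϑ hδ
  obtain ⟨κ, hκ, Hκ⟩ := Hm m hm
  obtain ⟨n2, Hn⟩ := Hκ δ hδ
  obtain ⟨n0, Hn0⟩ := HA κ hκ
  obtain ⟨n3, Hn3⟩ := h3 Γ μ (1 - ρ) Y' hΓ hμ hfl (by linarith) hY' a ha (min κ δ) (lt_min hκ hδ)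
  obtain ⟨n, hn⟩ : ∃ n, n = max n0 (max n2 n3) := ⟨_, rfl⟩
  have e0 : n0 ≤ n := by rw [hn]; exact le_max_left _ _
  have e2 : n2 ≤ n := by rw [hn]; exact (le_max_left _ _).trans (le_max_right _ _)
  have e3 : n3 ≤ n := by rw [hn]; exact (le_max_right _ _).trans (le_max_right _ _)
  obtain ⟨A, hA1, hA2, hA3⟩ := Hn0 n e0
  obtain ⟨A', hB1, hB2⟩ := Hn3 n e3
  refine ⟨n, A, A', hA2, ?_, ?_⟩
  · refine le_trans ?_ hB2
    have := min_le_right κ δ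
    linarith
  · have hB1' : (A'.card : ℝ) ≤ Real.exp ((1 - ρ + κ) * n) := by
      refine hB1.trans (Real.exp_le_exp.2 ?_)
      refine mul_le_mul_of_nonneg_right ?_ (Nat.cast_nonneg n)
      have := min_le_left κ δ
      linarith
    have h4 := Hn n e2 A A' Am hA1 hB1' hAm hA3
    refine HV.glue_LFI Γ A n (16 * a) _ _ δ _ h4 ?_ _ ?_
    · have h5 : (1 : ℝ) ≤ Real.exp n := Real.one_le_exp (Nat.cast_nonneg n)
      have h6 : (⌈Λ * Real.exp n⌉₊ : ℝ) < Λ * Real.exp n + 1 := Nat.ceil_lt_add_one (by positivity)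
      nlinarith
    · have h7 : (0 : ℝ) ≤ A'.card := Nat.cast_nonneg _
      nlinarith

theorem CLO_proof (hHLF : HV.HLF_stmt) (hHCW : HCW_stmt) : CLO_stmt := by
  intro Γ F r φ ν hΓ hF hr hφ hn hfin hν
  obtain ⟨μ, hμ, hfl, hmap, a0, ha0, H⟩ := hHLF Γ F r φ ν hΓ hF hr hφ hn hfin hν
  refine ⟨μ, hμ, hfl, hmap, ?_⟩
  intro ρ Y Y' hρ hρ2 hY hY'
  obtain ⟨a1, ha1, H1⟩ := hHCW Γ μ ρ Y Y' hΓ hμ hfl hρ hρ2 hY hY'
  exact H (min a0 a1) (lt_min ha0 ha1) (min_le_left _ _) (μ.real Y) (μ.real Y') measureReal_nonneg measureReal_le_one measureReal_nonneg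
    measureReal_le_one (H1 (min a0 a1) (lt_min ha0 ha1) (min_le_right _ _))

end Pool.Agent.CR
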