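import Pool.Agent.helper93.CR.SpecA
import Pool.Agent.helper63.HF.NIC

/-!
# MP_07c750, project CR: row NIW (many nice nodes; copy of row hf:NIC of helper63)
-/

set_option autoImplicit false

open Finset

namespace Pool.Agent.CR

open Pool.Agent.HF (H px QE G0 Rk sm vp nd hh cellU esum)

theorem NIW_div (w N i u : ℕ) : px N (i + w) u / 2 ^ ((N - i) - (N - (i + w))) = px N i u := by
  unfold px
  rw [Nat.div_div_eq_div_mul, ← pow_add]
  congr 2
  omega

open Classical in
theorem NIW_one (hHBS : HF.HBS_stmt) (hHCH : HF.HCH_stmt) (hNCW : NCW_stmt) (w : ℕ) (hw : 8 ≤ w) (R : Finset ℕ) (N i : ℕ) (hR : R.Nonempty)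
    (hu : ∀ u ∈ R, u < 2 ^ N) (hi : i ≤ N) :
    H R (px N (i + w)) - H R (px N i) ≤ 3 * Real.log 2 + w * Real.log 2 * qq w R N i := by
  have hL : 0 < Real.log 2 := Real.log_pos (by norm_num)
  have hpos : (0 : ℝ) < R.card := Nat.cast_pos.mpr hR.card_pos
  have hw0 : (0 : ℝ) ≤ w := Nat.cast_nonneg w
  have h1 := HF.NIC_chain hHCH R (px N (i + w)) (px N i) hR
    (fun p => 3 * Real.log 2 + w * Real.log 2 * (if nic w R N i p then (1 : ℝ) else 0)) (by
      intro u huR Z hZ
      have hZe : Z = nd R N i (px N i u) := by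
        ext y
        rw [hZ, nd, Finset.mem_filter]
      have hne : (nd R N i (px N i u)).Nonempty := ⟨u, by rw [nd, Finset.mem_filter]; exact ⟨huR, rfl⟩⟩
      rw [hZe]
      by_cases hn : nic w R N i (px N i u)
      · rw [if_pos hn]
        obtain ⟨d, hd⟩ : ∃ d, d = (N - i) - (N - (i + w)) := ⟨_, rfl⟩
        have hdw : d ≤ w := by omega
        have h2 := (hHBS ℕ ℕ ℕ (nd R N i (px N i u)) (px N (i + w)) (px N (i + w)) hne).2.1
          (Finset.Ico (px N i u * 2 ^ d) ((px N i u + 1) * 2 ^ d)) (by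
            intro y hy
            rw [nd, Finset.mem_filter] at hy
            have h3 := NIW_div w N i y
            rw [hy.2, ← hd] at h3
            rw [Finset.mem_Ico, ← h3]
            refine ⟨Nat.div_mul_le_self _ _, ?_⟩
            have h4 := Nat.lt_div_mul_add (a := px N (i + w) y) (b := 2 ^ d) (by positivity)
            rw [add_mul, one_mul]
            exact h4)
        rw [Nat.card_Ico] at h2
        have h3 : (px N i u + 1) * 2 ^ d - px N i u * 2 ^ d = 2 ^ d := by
          rw [add_mul, one_mul, Nat.add_sub_cancel_left]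
        rw [h3, Nat.cast_pow, Nat.cast_ofNat, Real.log_pow] at h2
        have h4 : (d : ℝ) * Real.log 2 ≤ w * Real.log 2 :=
          mul_le_mul_of_nonneg_right (by exact_mod_cast hdw) hL.le
        linarith
      · rw [if_neg hn]
        have h2 := hNCW w R N i (px N i u) hw hu hi hne hn
        linarith)
  have h2 : H R (px N (i + w)) ≤ H R (fun x => (px N (i + w) x, px N i x)) :=
    (hHBS ℕ (ℕ × ℕ) ℕ R (fun x => (px N (i + w) x, px N i x)) (px N (i + w)) hR).2.2.2 fun x _ y _ h => by
      simp only [Prod.mk.injEq] at h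
      exact h.1
  have h3 : (∑ x ∈ R, (3 * Real.log 2 + w * Real.log 2 * (if nic w R N i (px N i x) then (1 : ℝ) else 0))) / R.card =
      3 * Real.log 2 + w * Real.log 2 * qq w R N i := by
    rw [Finset.sum_add_distrib, Finset.sum_const, ← Finset.mul_sum, Finset.sum_boole, nsmul_eq_mul, qq]
    field_simp
  have h4 : (∑ x ∈ R, (fun p => 3 * Real.log 2 + w * Real.log 2 * (if nic w R N i p then (1 : ℝ) else 0)) (px N i x)) / R.card =
      3 * Real.log 2 + w * Real.log 2 * qq w R N i := h3
  rw [h4] at h1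
  linarith

/-- **Row NIW** -/
theorem NIW_proof (hHBS : HF.HBS_stmt) (hHCH : HF.HCH_stmt) (hNCW : NCW_stmt) : NIW_stmt := by
  intro w R N hw hR hu hN hlog
  have hL : 0 < Real.log 2 := Real.log_pos (by norm_num)
  have hwr : (8 : ℝ) ≤ w := by exact_mod_cast hw
  have h1 : ∑ i ∈ Finset.range (N + 1), (H R (px N (i + w)) - H R (px N i)) ≤
      ∑ i ∈ Finset.range (N + 1), (3 * Real.log 2 + w * Real.log 2 * qq w R N i) :=
    Finset.sum_le_sum fun i hi => NIW_one hHBS hHCH hNCW w hw R N i hR hu (by rw [Finset.mem_range] at hi; omega)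
  rw [Finset.sum_add_distrib, Finset.sum_const, ← Finset.mul_sum, Finset.card_range, nsmul_eq_mul] at h1
  have h2 : ∑ i ∈ Finset.range (N + 1), (H R (px N (i + w)) - H R (px N i)) =
      ∑ j ∈ Finset.range w, H R (px N (N + 1 + j)) - ∑ j ∈ Finset.range w, H R (px N j) := by
    have e1 := Finset.sum_range_add (fun i => H R (px N i)) w (N + 1)
    have e2 := Finset.sum_range_add (fun i => H R (px N i)) (N + 1) w
    rw [show w + (N + 1) = N + 1 + w by omega, e2] at e1
    rw [Finset.sum_sub_distrib]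
    have e3 : ∑ i ∈ Finset.range (N + 1), H R (px N (i + w)) = ∑ i ∈ Finset.range (N + 1), H R (px N (w + i)) :=
      Finset.sum_congr rfl fun i _ => by rw [add_comm i w]
    rw [e3]
    linarith
  have h3 : ∀ j, H R (px N (N + 1 + j)) = Real.log R.card := by
    intro j
    refine (hHBS ℕ ℕ ℕ R (px N (N + 1 + j)) (px N (N + 1 + j)) hR).2.2.1 fun x _ y _ h => ?_
    unfold px at h
    rw [show N - (N + 1 + j) = 0 by omega, pow_zero, Nat.div_one, Nat.div_one] at h
    exact h
  have h4 : ∀ j ∈ Finset.range w, H R (px N j) ≤ w * Real.log 2 := by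
    intro j hj
    rw [Finset.mem_range] at hj
    have h5 := (hHBS ℕ ℕ ℕ R (px N j) (px N j) hR).2.1 (Finset.range (2 ^ j)) (by
      intro u huR
      rw [Finset.mem_range]
      unfold px
      refine Nat.div_lt_of_lt_mul ?_
      rw [← pow_add]
      refine (hu u huR).trans_le (Nat.pow_le_pow_right (by norm_num) (by omega)))
    rw [Finset.card_range, Nat.cast_pow, Nat.cast_ofNat, Real.log_pow] at h5
    refine h5.trans (mul_le_mul_of_nonneg_right ?_ hL.le)
    exact_mod_cast hj.le
  have h5 : ∑ j ∈ Finset.range w, H R (px N j) ≤ w * (w * Real.log 2) := by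
    refine (Finset.sum_le_sum h4).trans ?_
    rw [Finset.sum_const, Finset.card_range, nsmul_eq_mul]
  have h6 : ∑ j ∈ Finset.range w, H R (px N (N + 1 + j)) = w * Real.log R.card := by
    rw [Finset.sum_congr rfl fun j _ => h3 j, Finset.sum_const, Finset.card_range, nsmul_eq_mul]
  rw [h2, h6] at h1
  push_cast at h1
  obtain ⟨Q, hQ⟩ : ∃ Q, Q = ∑ i ∈ Finset.range (N + 1), qq w R N i := ⟨_, rfl⟩
  rw [← hQ] at h1 ⊢
  have hlog' : 7 * (N * Real.log 2) ≤ w * Real.log R.card := by
    have := mul_le_mul_of_nonneg_left hlog (by linarith : (0 : ℝ) ≤ w)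
    rwa [← mul_assoc, mul_div_cancel₀ _ (by positivity)] at this
  have h7 : Real.log 2 * (7 * N - w * w) ≤ Real.log 2 * (3 * (N + 1) + w * Q) := by
    nlinarith [h1, h5, hlog']
  have h8 := le_of_mul_le_mul_left h7 hL
  have h9 : (w : ℝ) * w ≤ N := by exact_mod_cast hN
  rw [div_le_iff₀ (by positivity)]
  nlinarith

end Pool.Agent.CR
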