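import Pool.Agent.helper84.HF.All
import Pool.Agent.helper93.ER.All
import Pool.Agent.helper93.CR.NIW
import Pool.Agent.helper93.CR.HCW
import Pool.Agent.helper60.CR.NCW
import Pool.Agent.helper97.CR.FOW
import Pool.Agent.helper84.CR.VAW
import Pool.Agent.helper84.CR.PNW
import Pool.Agent.helper84.CR.THW
import Pool.Agent.helper84.CR.LEW
import Pool.Agent.helper36.CR.STW
import Pool.Agent.helper36.CR.GRW
import Pool.Agent.helper30.CR.GTW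
import Pool.Agent.helper39.CR.GYW
import Pool.Agent.helper50.CR.LFW
import Pool.Agent.helper23.CR.EZW

/-!
# MP_07c750, project CR: assembly
-/

set_option autoImplicit false

open scoped MatrixGroups ContDiff Topology UpperHalfPlane ComplexConjugate
open UpperHalfPlane MeasureTheory Filter Set

namespace Pool.Agent.CR

open Pool.Agent.RS
open Pool.Agent.EN (XG MG mkX mkM fl pr)
open Pool.Agent.ER (Low)

theorem A_NCW : NCW_stmt := NCW_proof HF.A_HCH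
theorem A_NIW : NIW_stmt := NIW_proof HF.A_HBS HF.A_HCH A_NCW
theorem A_FOW : FOW_stmt := FOW_proof HF.A_COL HF.A_FEJ HF.A_CHX
theorem A_VAW : VAW_stmt := VAW_proof HF.A_SMH
theorem A_PNW : PNW_stmt := PNW_proof
theorem A_STW : STW_stmt := STW_proof HF.A_HBS HF.A_HCH HF.A_HSM A_FOW HF.A_SHF A_VAW
theorem A_GRW : GRW_stmt := GRW_proof HF.A_HBS A_NIW HF.A_POR A_PNW A_STW
theorem A_THW : THW_stmt := THW_proof HF.A_BSE HF.A_KVM A_GRW
theorem A_LEW : LEW_stmt := LEW_proof' A_THW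
theorem A_GTW : GTW_stmt := GTW_proof
theorem A_GYW : GYW_stmt := GYW_proof A_GTW HF.A_GPR HF.A_GCL HF.A_GPO
theorem A_LFW : LFW_stmt := LFW_proof A_LEW A_GYW
theorem A_EZW : EZW_stmt := EZW_proof LL.A_LOC MS.A_SML HF.A_CYS HF.A_MRK EN.A_PAR EN.A_XFL EN.A_XTX EN.A_XNB
theorem A_HCW : HCW_stmt := HCW_proof A_EZW A_LFW ER.A_EZR
theorem A_CLO : CLO_stmt := CLO_proof HV.A_HLF A_HCW

/-- **The closed reflection inequality.** -/
theorem closed (Γ : Subgroup SL(2, ℝ)) (F : Set ℍ) (r : ℕ → ℝ) (φ : ℕ → ℍ → ℂ) (ν : Measure (MG Γ)) (hΓ : QU.SurfaceGroup Γ)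
    (hF : IsFundamentalDomain Γ F (volume : Measure ℍ)) (hr : Tendsto r atTop atTop) (hφ : ∀ k, Eig Γ (r k) (φ k)) (hn : ∀ k, ∫ z in F, ‖φ k z‖ ^ 2 = 1)
    (hfin : IsFiniteMeasure ν)
    (hν : ∀ V : MG Γ → ℝ, Continuous V → Tendsto (fun k => ∫ z in F, V (mkM Γ z) * ‖φ k z‖ ^ 2) atTop (𝓝 (∫ x, V x ∂ν))) :
    ∃ μ : Measure (XG Γ), IsProbabilityMeasure μ ∧ (∀ t, μ.map (fl Γ t) = μ) ∧ μ.map (pr Γ) = ν ∧ (∀ a, MeasurableSet (Low Γ μ a)) ∧
      (∀ (E : Set (MG Γ)) (α : ℝ), MeasurableSet E → 0 < α → α ≤ 1 → LL.Small Γ α E → μ (pr Γ ⁻¹' E \ Low Γ μ (α / 2)) = 0) ∧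
      ∀ a : ℝ, 0 < a → a < 1 → μ (Low Γ μ a) + μ (Low Γ μ (1 - a)) ≤ 1 := by
  obtain ⟨μ, hμ, hfl, hmap, hmain⟩ := A_CLO Γ F r φ ν hΓ hF hr hφ hn hfin hν
  refine ⟨μ, hμ, hfl, hmap, fun a => ER.Low_meas Γ hΓ μ hμ a, fun E α hE h0 h1 hs => ER.A_LSM Γ μ E α hΓ hμ hfl hE h0 h1 hs, fun a ha ha1 => ?_⟩
  have key : ∀ b : ℝ, 0 < b → b ≤ 1 / 2 → μ (Low Γ μ b) + μ (Low Γ μ (1 - b)) ≤ 1 := by
    intro b hb hb2
    have h2 := hmain b (Low Γ μ b) (Low Γ μ (1 - b)) hb hb2 (ER.A_LDE Γ μ b hΓ hμ hfl hb.le)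
      (ER.A_LDE Γ μ (1 - b) hΓ hμ hfl (by linarith))
    rw [← ofReal_measureReal (measure_ne_top μ (Low Γ μ b)), ← ofReal_measureReal (measure_ne_top μ (Low Γ μ (1 - b))),
      ← ENNReal.ofReal_add measureReal_nonneg measureReal_nonneg]
    exact ENNReal.ofReal_le_one.2 h2
  rcases le_or_gt a (1 / 2) with h | h
  · exact key a ha h
  · have h3 := key (1 - a) (by linarith) (by linarith)
    have h4 : 1 - (1 - a) = a := by ring
    rw [h4] at h3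
    rw [add_comm]
    exact h3

end Pool.Agent.CR
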