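import Pool.Agent.helper65.HF.LEAF

/-!
# MP_07c750 (quantum unique ergodicity, weight 10), project CR (closed reflection): block A, rows `cr:X`

THEOREM (CR). Let `M = Γ \ ℍ` be a closed hyperbolic surface, `φ_k` normalised eigenfunctions, eigenvalues `1/4 + r_k² → ∞`, `|φ_k|² dz → ν` weakly. There is a flow invariant lift `μ` of `ν` such that the distribution function
`F(a) = μ {h ≤ a}` of the local entropy satisfies `F(a) + F(1 - a) ≤ 1` for EVERY `0 < a < 1`. (`a = 1/2` is HALF; the case `F(a) + F(b) ≤ 1`, `a + b < 1`, is the hand-in EntropyReflection, proved.)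

PROOF. HALF with two sets (row HLF of `Pool.Agent.helper62.HF.SpecV` has two sets `A`, `A'` already): `A` for the entropy `a ≤ 1/2` (small, porous), `A'` for the entropy `1 - a`. The only new point: the additive energy theorem THE for sets of size `≥ 2^(8N/w)`, `w` arbitrary, in place of `w = 32`.
This file is the block H of helper84 (`Pool.Agent.helper84.HF.SpecH`) with the parameter `w` (window length) in place of `32`: THE ROWS ARE COPIES OF PROVED ROWS. Dictionary: `32 → w`, `96 → 3w`, `1/16 → 2/w`, `7/32 → 7/w`, `1024 → w²` (in NIC), `128 → 4w`, `1/32 → 1/w`, `64 → 2w`, `4^(2m+53) → 4^(2m+3+2w)` (`50 → 2w`),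
`73 → 4w`, `75 → 4w + 2`, `N L/1024 → N L/(32 w)`, `2^17 ≤ m → 2^10 w² ≤ m`, `2^N ≤ |Y|^4 → 2^(8N) ≤ |Y|^w`, always `8 ≤ w`.

RULES. Row `cr:XXX`: file `Pool/Agent/<seat>/CR/XXX.lean`, `import Pool.Agent.helper93.CR.SpecA` (and what you use), `set_option autoImplicit false`, namespace `Pool.Agent.CR`, `open Finset Pool.Agent.HF` (without `nic`, `qq`, `PN`: they are redefined here; use `Pool.Agent.CR.nic` etc. inside the namespace, it has priority),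
auxiliary lemmas prefixed `XXX_` (the lemmas of the copied files may be imported and used), theorem `XXX_proof (h : HF.YYY_stmt) .. : XXX_stmt` with the rows listed in `from` as hypotheses. No straight double quotes, no convert / congr!.
-/

set_option autoImplicit false

open Finset MeasureTheory

namespace Pool.Agent.CR

open Pool.Agent.HF (H px QE G0 Rk sm vp nd hh cellU esum)

/-- the node is nice: its variance is at least `2^(-3w)` times the square of its length -/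
def nic (w : ℕ) (R : Finset ℕ) (N i p : ℕ) : Prop := (4 : ℝ) ^ (N - i) / 2 ^ (3 * w) ≤ vp (nd R N i p)

open Classical in
/-- the probability that the node of level `i` is nice -/
noncomputable def qq (w : ℕ) (R : Finset ℕ) (N i : ℕ) : ℝ := ((R.filter (fun u => nic w R N i (px N i u))).card : ℝ) / R.card

open Classical in
/-- the proportion of the tuples with at least `k/(2w)` nice nodes at the level `i` (the coordinate `0` is not counted) -/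
noncomputable def PN (w : ℕ) (R : Finset ℕ) (N k i : ℕ) : ℝ :=
  (((Rk (k + 1) R).filter (fun u => (k : ℝ) / (2 * w) ≤ ((Finset.univ.filter (fun l : Fin (k + 1) => l ≠ 0 ∧ nic w R N i (px N i (u l)))).card : ℝ))).card : ℝ) / (Rk (k + 1) R).card

/-- **Row NCW** (a node which is not nice carries little entropy; short-medium; from HF.HCH; copy of helper4/HF/NCH.lean). `Z` = the node, in an interval of length `A = 2^(N-i)`; variance `< A²/2^(3w)`. Chebyshev: the points with `|z - z̄| ≥ A/2^w` have proportion `≤ 2^(2w)/2^(3w) = 2^(-w)`. The others have at most `3` values of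
`px N (i+w)` (an interval of length `2 A/2^w`, cells of length `A/2^w`; if `N - i < w` the cells are single points). `H ≤ log 2 + log 3 + 2^(-w) · w log 2 ≤ 3 log 2` (`w 2^(-w) ≤ 1/32` for `w ≥ 8`). -/
def NCW_stmt : Prop := ∀ (w : ℕ) (R : Finset ℕ) (N i p : ℕ), 8 ≤ w → (∀ u ∈ R, u < 2 ^ N) → i ≤ N → (nd R N i p).Nonempty → ¬ nic w R N i p →
  H (nd R N i p) (px N (i + w)) ≤ 3 * Real.log 2

/-- **Row NIW** (many nice nodes; short; from HF.HBS, HF.HCH, NCW; copy of helper63/HF/NIC.lean). `H R (px N (i+w)) - H R (px N i) ≤ 3 log 2 + w log 2 · qq w R N i`; the sum over `i = 0, .., N` telescopes: `w log |R| - w · w log 2 ≤ 3 log 2 (N+1) + w log 2 Σ q_i`, so with `log |R| ≥ (7/w) N log 2`: `7 N - w² ≤ 3 (N+1) + w Σ q_i`,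
`w Σ q_i ≥ 4 N - 3 - w² ≥ 2 N` as `N ≥ w²` and `N ≥ 3`. -/
def NIW_stmt : Prop := ∀ (w : ℕ) (R : Finset ℕ) (N : ℕ), 8 ≤ w → R.Nonempty → (∀ u ∈ R, u < 2 ^ N) → w * w ≤ N → 7 / w * (N * Real.log 2) ≤ Real.log R.card →
  2 * (N : ℝ) / w ≤ ∑ i ∈ Finset.range (N + 1), qq w R N i

/-- **Row FOW** (the cell of the sum is almost uniform; short-medium; from HF.COL, HF.FEJ, HF.CHX; copy of helper99/HF/FOU.lean). `k = 4^(2m+3+2w)`. For `1 ≤ l ≤ 4^m`: `‖ch‖² ≤ exp (-(11/12) 4π² l² 4^(-s0) 2^(-3w) k/(2w)) ≤ exp (-36 l² 4^(2w) 2^(-3w)/(2w)) = exp (-18 l² 2^w/w)`, and `2^w/w ≥ 32` for `w ≥ 8`: much smaller than in FOU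
(where it was `exp (-9 l²)`, `FOU_num` and `FOU_geom` can be used). -/
def FOW_stmt : Prop := ∀ (w m a c : ℕ) (X : Fin (4 ^ (2 * m + 3 + 2 * w) + 1) → Finset ℕ), 8 ≤ w → m ≤ a → 2 * m + 3 ≤ a → (∀ i, (X i).Nonempty) →
  (∀ i, i ≠ 0 → ∀ u ∈ X i, ∀ v ∈ X i, |(u : ℝ) - v| ≤ (2 : ℝ) ^ (a - (2 * m + 3))) →
  ((4 : ℝ) ^ (2 * m + 3 + 2 * w) / (2 * w) ≤ (({i | i ≠ 0 ∧ (4 : ℝ) ^ (a - (2 * m + 3)) / 2 ^ (3 * w) ≤ vp (X i)} : Set (Fin (4 ^ (2 * m + 3 + 2 * w) + 1))).ncard : ℝ)) →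
    ((m : ℝ) - 3) * Real.log 2 ≤ H (Fintype.piFinset X) (fun u => (c + sm u) / 2 ^ (a - m) % 2 ^ m)

/-- **Row VAW** (the integer part of the sum has bounded entropy; short; from HF.SMH; copy of helper21/HF/VAS.lean). The average of `dev²` is `≤ k 4^(-s0) = 4^(2w)`; the second moment is `≤ 8 + 2 · 4^(2w)`, and SMH: `H ≤ log 5 + log (9 + 2 · 4^(2w)) ≤ log 5 + (4w+2) log 2 ≤ 4w` (`9 ≤ 2 · 4^(2w)`; `log 5 ≤ 1.61`, `0.694 (4w+2) + 1.61 ≤ 4w` for `w ≥ 8`). -/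
def VAW_stmt : Prop := ∀ (w m a c : ℕ) (X : Fin (4 ^ (2 * m + 3 + 2 * w) + 1) → Finset ℕ), 8 ≤ w → 2 * m + 3 ≤ a → (∀ i, (X i).Nonempty) →
  (∀ u ∈ X 0, ∀ v ∈ X 0, |(u : ℝ) - v| ≤ (2 : ℝ) ^ a) →
  (∀ i, i ≠ 0 → ∀ u ∈ X i, ∀ v ∈ X i, |(u : ℝ) - v| ≤ (2 : ℝ) ^ (a - (2 * m + 3))) →
    H (Fintype.piFinset X) (fun u => (c + sm u) / 2 ^ a) ≤ 4 * w

/-- **Row PNW** (short; copy of helper87/HF/PNQ.lean). `k qq ≤ P k + k/(2w)`, `k/(2w) ≤ k qq/2`. -/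
def PNW_stmt : Prop := ∀ (w : ℕ) (R : Finset ℕ) (N k i : ℕ), 8 ≤ w → R.Nonempty → 1 ≤ k → 1 / (w : ℝ) ≤ qq w R N i → qq w R N i / 2 ≤ PN w R N k i

/-- **Row STW** (one scale; short-medium; from HF.HBS, HF.HCH, HF.HSM, FOW, HF.SHF, VAW; copy of the last lemma of helper23/HF/STJ.lean: `STJ_gen` is general, check that it can be used as it is, or copy it). The constant: `4w` (VAW) `+ log 2 ≤ 4w + 2`. -/
def STW_stmt : Prop := ∀ (w : ℕ) (R : Finset ℕ) (N m j : ℕ), 8 ≤ w → R.Nonempty → (∀ u ∈ R, u < 2 ^ N) → 4 ≤ m → j + (2 * m + 3) ≤ N →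
  hh R N m j - (4 * w + 2) + PN w R N (4 ^ (2 * m + 3 + 2 * w)) (j + (2 * m + 3)) * (((m : ℝ) - 3) * Real.log 2 - hh R N m j) ≤
    H (Rk (4 ^ (2 * m + 3 + 2 * w) + 1) R) (fun u => px N (j + m) (HF.sm u)) - H (Rk (4 ^ (2 * m + 3 + 2 * w) + 1) R) (fun u => px N j (HF.sm u))

open Classical in
/-- **Row GRW** (growth; medium; from HF.HBS, NIW, HF.POR, PNW, STW; copy of helper99/HF/GRO.lean). As GRO: `m (H X sm - log |R|) ≥ -m (s0 + m) L - (4w + 2 + 4L)(N+1) + (mL/4) Σ_J PN_j (1 - b_j)`, `Σ_J PN_j (1 - b_j) ≥ (1/2)(Σ_(i ≥ s0) q_i - (N+1)/w - Σ b_j) ≥ (1/2)(2N/w - s0 - (N+1)/w - N/(4w)) = (1/2)(3N/(4w) - s0 - 1/w)`.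
Total `≥ (3/32) m L N/w - (4w + 5)(N + 1) - C(m)`; `(4w+5)/m ≤ (4w+5)/(2^10 w²) ≤ 0.0046/w` and `L/(16 w) ≥ 0.043/w`, so `H X sm - log |R| ≥ N L/(32 w)` for `N ≥ N0(m, w)`. -/
def GRW_stmt : Prop := ∀ w m : ℕ, 8 ≤ w → 2 ^ 10 * w ^ 2 ≤ m → ∃ N0 : ℕ, ∀ N : ℕ, N0 ≤ N → ∀ (R : Finset ℕ) (G : ℕ → ℕ → Prop), R.Nonempty → (∀ u ∈ R, u < 2 ^ N) →
  7 / w * (N * Real.log 2) ≤ Real.log R.card →
  (∀ u ∈ R, 4 * w * ((Finset.range (N + 1)).filter (fun j => ¬ G u j)).card ≤ N) →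
  (∀ j p : ℕ, j + m ≤ N → ((R.filter (fun u => G u j ∧ px N j u = p)).image (px N (j + m))).card ^ 4 ≤ 2 ^ (3 * m)) →
    Real.log R.card + N * Real.log 2 / (32 * w) ≤ H (Rk (4 ^ (2 * m + 3 + 2 * w) + 1) R) HF.sm

open Classical in
/-- **Row THW** (the additive energy theorem; short; from HF.BSE, HF.KVM, GRW; copy of helper63/HF/THE.lean). `k = 4^(2m+3+2w)`, `γ = 1/(256 w k)`. If `E(Y) > 2^(-γN) |Y|³` then `g₀ < γ N L`; `log |R| ≥ log |Y| - 4 γ N L ≥ (8/w) N L - (1/w) N L = (7/w) N L`; GRW and KVM: `N L/(32 w) ≤ k (8 g₀) < 8 k γ N L = N L/(32 w)`: contradiction. -/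
def THW_stmt : Prop := ∀ w m : ℕ, 8 ≤ w → 2 ^ 10 * w ^ 2 ≤ m → ∃ (γ : ℝ) (N0 : ℕ), 0 < γ ∧ γ ≤ 1 ∧ ∀ N : ℕ, N0 ≤ N → ∀ (Y : Finset ℕ) (G : ℕ → ℕ → Prop), (∀ u ∈ Y, u < 2 ^ N) →
  2 ^ (8 * N) ≤ Y.card ^ w →
  (∀ u ∈ Y, 4 * w * ((Finset.range (N + 1)).filter (fun j => ¬ G u j)).card ≤ N) →
  (∀ j p : ℕ, j + m ≤ N → ((Y.filter (fun u => G u j ∧ px N j u = p)).image (px N (j + m))).card ^ 4 ≤ 2 ^ (3 * m)) →
    ((QE Y).card : ℝ) ≤ (2 : ℝ) ^ (-(γ * N)) * (Y.card : ℝ) ^ 3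

open Classical in
/-- **Row LEW** (the leafwise inequality; short; from HF.LEA, THW; copy of `LEF_proof` in helper65/HF/LEAF.lean). If `2^(8N) ≤ |Y|^w`: THW and the first alternative of LEA. Otherwise `(|J| |Y|)^w ≤ |J|^w 2^(8N) ≤ B^w`, so `|J| |Y| ≤ B`: the second alternative. -/
def LEW_stmt : Prop := ∀ w m : ℕ, 8 ≤ w → 2 ^ 10 * w ^ 2 ≤ m → ∃ (γ : ℝ) (N0 : ℕ), 0 < γ ∧ γ ≤ 1 ∧ ∀ N : ℕ, N0 ≤ N → ∀ (Y : Finset ℕ) (G : ℕ → ℕ → Prop), (∀ u ∈ Y, u < 2 ^ N) →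
  (∀ u ∈ Y, 4 * w * ((Finset.range (N + 1)).filter (fun j => ¬ G u j)).card ≤ N) →
  (∀ j p : ℕ, j + m ≤ N → ((Y.filter (fun u => G u j ∧ px N j u = p)).image (px N (j + m))).card ^ 4 ≤ 2 ^ (3 * m)) →
  ∀ (W : ℕ) (J : Finset ℤ) (c : ℤ) (a : ℤ → ℂ) (B : ℝ) (S : Set ℝ), (∀ j ∈ J, c ≤ j ∧ j < c + W * 2 ^ (N + 2)) → 0 ≤ B →
  (J.card : ℝ) ^ w * 2 ^ (8 * N) ≤ B ^ w →
  (J.card : ℝ) ^ 3 * ((W : ℝ) * 2 ^ (N + 2)) * ((2 : ℝ) ^ (-(γ * N)) * (Y.card : ℝ) ^ 3) ≤ B ^ 4 → S ⊆ cellU N Y →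
    ∫ v in S, ‖esum J a v‖ ^ 2 ≤ B / 2 ^ N * ∑ j ∈ J, ‖a j‖ ^ 2

open Classical in
/-- **Row GTW** (the bad digits; short; pure; copy of helper23/HF/GTM.lean). `L = log 2 < 0.7`. First kind: at most `2 |I| ≤ n/(16 w)`; second kind: at most `2 + (m-1)/L ≤ 2m + 1 ≤ 3m ≤ 3n/(32 w)`. `4w (n/(16w) + 3n/(32w)) = 5n/8 ≤ (5/8) · 0.7 N ≤ N` (`n ≤ N L`). -/
def GTW_stmt : Prop := ∀ (w n m N : ℕ) (I : Finset ℕ), 8 ≤ w → 1 ≤ m → 32 * w * m ≤ n → Real.exp n ≤ 2 ^ N → (2 : ℝ) ^ N < 2 * Real.exp n → 32 * w * I.card ≤ n →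
  4 * w * ((Finset.range (N + 1)).filter (fun j : ℕ => ⌊(j : ℝ) * Real.log 2⌋₊ ∈ I ∨ n < ⌊(j : ℝ) * Real.log 2⌋₊ + m)).card ≤ N

end Pool.Agent.CR
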