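import Pool.Agent.helper93.CR.SpecA
import Pool.Agent.helper93.ER.Spec
import Pool.Agent.helper84.HF.Defs
import Pool.Agent.helper80.HF.SpecG
import Pool.Agent.helper62.HF.SpecV

/-!
# MP_07c750 (quantum unique ergodicity, weight 10), project CR (closed reflection): block B, rows `cr:X`

See `Pool.Agent.helper93.CR.SpecA` for the theorem. Rules as there, but `import Pool.Agent.helper93.CR.SpecB`. THE ROWS ARE COPIES OF PROVED ROWS of the project HALF with a parameter. `HF.LowJ` and `ER.LowJ` are literally the same.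
-/

open scoped MatrixGroups ContDiff Topology UpperHalfPlane ComplexConjugate
open UpperHalfPlane MeasureTheory Filter Set

set_option autoImplicit false

namespace Pool.Agent.CR

open Pool.Agent.RS
open Pool.Agent.MS (bq CW)
open Pool.Agent.EN (XG MG mkX mkM fl pr)
open Pool.Agent.HF (px fb bad)
open Pool.Agent.ER (LowJ)

open Classical in
/-- **Row GYW** (the leaf set in cells; short; from GTW, HF.GPR, HF.GCL, HF.GPO; copy of helper80/HF/GYC.lean, with GTW in place of GTM). -/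
def GYW_stmt : Prop := ∀ Γ : Subgroup SL(2, ℝ), QU.SurfaceGroup Γ → ∃ (a0 : ℝ) (C m1 : ℕ), 0 < a0 ∧ a0 ≤ 1 / 1000 ∧ ∀ (w : ℕ) (a : ℝ) (n m N : ℕ) (A Am : Finset SL(2, ℝ)) (g : SL(2, ℝ)), 8 ≤ w → 0 < a → a ≤ a0 → m1 ≤ m → 32 * w * m ≤ n →
  Real.exp n ≤ 2 ^ N → (2 : ℝ) ^ N < 2 * Real.exp n → (Am.card : ℝ) ≤ Real.exp (5 / 8 * m) →
  (∀ y ∈ A, 32 * w * ((Finset.range n).filter (fun i : ℕ => ¬ fb Γ a m Am (y * aM (i : ℝ)))).card ≤ n) →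
    ∃ (Y : Finset ℕ) (G : ℕ → ℕ → Prop), (∀ u ∈ Y, u < 2 ^ N) ∧ Y.card ≤ C * A.card ∧
      (∀ v : ℝ, 0 ≤ v → v ≤ 1 → fb Γ (16 * a) n A (g * lM v) → ∃ u ∈ Y, (u : ℝ) / 2 ^ N ≤ v ∧ v ≤ ((u : ℝ) + 1) / 2 ^ N) ∧
      (∀ u ∈ Y, 4 * w * ((Finset.range (N + 1)).filter (fun j => ¬ G u j)).card ≤ N) ∧
      ∀ j p : ℕ, j + ⌊(m : ℝ) / Real.log 2⌋₊ ≤ N →
        ((Y.filter (fun u => G u j ∧ px N j u = p)).image (px N (j + ⌊(m : ℝ) / Real.log 2⌋₊))).card ^ 4 ≤ 2 ^ (3 * ⌊(m : ℝ) / Real.log 2⌋₊)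

/-- **Row LFW** (the leafwise inequality for two sets; short-medium; from LEW, GYW; copy of helper84/HF/LFE.lean). `a1 = a0` of GYW. Given `a`, `C`, `ρ`: `w = ⌈16/ρ⌉₊` (`≥ 32`), `ϑ = 1/(32 w)`, `m1` = the maximum of `1`, `m1` of GYW and `2^10 w²` (`⌊m/log 2⌋₊ ≥ m`). Given `m`: `γ`, `N0` from LEW for `w`, `⌊m/log 2⌋₊`; `κ = min (γ/12) (ρ/4)`.
Given `η`: `n2` = the maximum of `N0`, `32 w m` and a bound for the numbers below. Given `n`, `A`, `A'`, `Am`, `g`, `J`: `N` as in LFE_N, `X = 2^N`, `Y`, `G` from GYW; `K = |J| ≤ C |A'|`, `|A'| ≤ X^(1-ρ+κ)`, `|Y| ≤ C0 |A|`, `|A| ≤ X^(ρ+κ)` (`e^n ≤ X`). LEW with `B = η X` (`B/2^N = η`): (1) `K^w X^8 ≤ C^w X^((1-ρ+κ) w + 8) ≤ (η X)^w`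
as `(ρ - κ) w - 8 ≥ (3ρ/4)(16/ρ) - 8 = 4` and `C^w ≤ η^w X^4` for large `X`. (2) `K³ (W 4X) (X^(-γ) |Y|³) ≤ 4 W C³ C0³ X^(3(1-ρ+κ) + 1 - γ + 3(ρ+κ)) = 4 W C³ C0³ X^(4 + 6κ - γ) ≤ 4 W C³ C0³ X^(4 - γ/2) ≤ (η X)^4` for large `X`. -/
def LFW_stmt : Prop := ∀ Γ : Subgroup SL(2, ℝ), QU.SurfaceGroup Γ → ∃ a1 : ℝ, 0 < a1 ∧ ∀ a : ℝ, 0 < a → a ≤ a1 → ∀ C ρ : ℝ, 0 < C → 0 < ρ → ρ ≤ 1 / 2 → ∃ (ϑ : ℝ) (m1 : ℕ), 0 < ϑ ∧ ∀ m : ℕ, m1 ≤ m → ∃ κ : ℝ, 0 < κ ∧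
  ∀ η : ℝ, 0 < η → ∃ n2 : ℕ, ∀ n : ℕ, n2 ≤ n → ∀ A A' Am : Finset SL(2, ℝ), (A.card : ℝ) ≤ Real.exp ((ρ + κ) * n) → (A'.card : ℝ) ≤ Real.exp ((1 - ρ + κ) * n) → (Am.card : ℝ) ≤ Real.exp (5 / 8 * m) →
    (∀ y ∈ A, (bad Γ Am a m n y : ℝ) ≤ ϑ * n) → HF.LFI Γ A n (16 * a) (C * A'.card) (C * Real.exp n) η

/-- **Row EZW** (words; short; from LL.LOC, MS.SML, HF.CYS, HF.MRK, EN.PAR, EN.XFL, EN.XTX, EN.XNB; copy of helper1/HF/EZJ.lean with `ρ ≤ 1/2` in place of `1/2`). `J ≤ ρ + 3ε ≤ 1/2 + 3ε` on `Y`, so the first level (words of length `m`, `e^(5m/8)`) is unchanged; second level: `J' ≤ ρ + 3ε'`, `cyl N x ≥ e^(-N(ρ + κ/4))`. -/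
def EZW_stmt : Prop := ∀ (Γ : Subgroup SL(2, ℝ)) (μ : Measure (XG Γ)) (ρ : ℝ) (Y : Set (XG Γ)), QU.SurfaceGroup Γ → IsProbabilityMeasure μ → (∀ t, μ.map (fl Γ t) = μ) → 0 ≤ ρ → ρ ≤ 1 / 2 → LowJ Γ μ ρ Y →
  ∀ a : ℝ, 0 < a → ∀ (η δ : ℝ) (m0 : ℕ), 0 < η → 0 < δ → ∃ (m : ℕ) (Am : Finset SL(2, ℝ)), m0 ≤ m ∧ (Am.card : ℝ) ≤ Real.exp (5 / 8 * m) ∧
    ∀ κ : ℝ, 0 < κ → ∃ n0 : ℕ, ∀ n : ℕ, n0 ≤ n → ∃ A : Finset SL(2, ℝ), (A.card : ℝ) ≤ Real.exp ((ρ + κ) * n) ∧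
      μ.real Y - δ ≤ μ.real {x | ∃ y ∈ A, ∃ h : SL(2, ℝ), bq a a (a * Real.exp (-n)) h ∧ x = mkX Γ (y * h)} ∧
      ∀ y ∈ A, (bad Γ Am a m n y : ℝ) ≤ η * n

/-- **Row HCW** (short; from EZW, LFW, ER.EZR; compare helper84/HF/Defs.lean ERG_proof and helper62/HF/Glue.lean). `a1` of LFW. Given `a`, `Λ`, `δ`: LFW with `C = 4Λ`: `ϑ`, `m1`; EZW with `η = ϑ`, `δ`, `m0 = m1`: `m`, `Am`; `κ` from LFW; `n2` from LFW for `η = δ`; `n0` from EZW for `κ`; `A'` from EZR (`CW Γ μ (μ.real Y') a (1 - ρ)`) with `min κ δ`;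
`n` = the maximum. `HF.LFI` for `(4Λ |A'|, 4Λ e^n)` gives `HV.LFI` for `(Λ |A'|, ⌈Λ e^n⌉₊)` (`glue_LFI` of helper62/HF/Glue.lean). -/
def HCW_stmt : Prop := ∀ (Γ : Subgroup SL(2, ℝ)) (μ : Measure (XG Γ)) (ρ : ℝ) (Y Y' : Set (XG Γ)), QU.SurfaceGroup Γ → IsProbabilityMeasure μ → (∀ t, μ.map (fl Γ t) = μ) → 0 < ρ → ρ ≤ 1 / 2 → LowJ Γ μ ρ Y → LowJ Γ μ (1 - ρ) Y' →
  ∃ a1 : ℝ, 0 < a1 ∧ ∀ a : ℝ, 0 < a → a ≤ a1 → HV.HC Γ μ (μ.real Y) (μ.real Y') a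

/-- **Row CLO** (the theorem; short; from HV.HLF, HCW). -/
def CLO_stmt : Prop := ∀ (Γ : Subgroup SL(2, ℝ)) (F : Set ℍ) (r : ℕ → ℝ) (φ : ℕ → ℍ → ℂ) (ν : Measure (MG Γ)), QU.SurfaceGroup Γ →
  IsFundamentalDomain Γ F (volume : Measure ℍ) → Tendsto r atTop atTop → (∀ k, Eig Γ (r k) (φ k)) → (∀ k, ∫ z in F, ‖φ k z‖ ^ 2 = 1) → IsFiniteMeasure ν →
  (∀ V : MG Γ → ℝ, Continuous V → Tendsto (fun k => ∫ z in F, V (mkM Γ z) * ‖φ k z‖ ^ 2) atTop (𝓝 (∫ x, V x ∂ν))) →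
  ∃ μ : Measure (XG Γ), IsProbabilityMeasure μ ∧ (∀ t, μ.map (fl Γ t) = μ) ∧ μ.map (pr Γ) = ν ∧
    ∀ (ρ : ℝ) (Y Y' : Set (XG Γ)), 0 < ρ → ρ ≤ 1 / 2 → LowJ Γ μ ρ Y → LowJ Γ μ (1 - ρ) Y' → μ.real Y + μ.real Y' ≤ 1

end Pool.Agent.CR
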